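import Mathlib

set_option maxHeartbeats 400000

namespace Pool.Agent.H.MP_970c5e_al

open Matrix MonoidAlgebra

variable {G : Type} [Group G] [Fintype G]

theorem sc {n M : Type} [Fintype n] [AddCommMonoid M] (F : n → n → G → M) :
    ∑ a, ∑ b, ∑ g, F a b g = ∑ g, ∑ a, ∑ b, F a b g :=
  (Finset.sum_congr rfl fun _ _ => Finset.sum_comm).trans Finset.sum_comm

theorem fs {n : Type} [Fintype n] [DecidableEq n] (r : MonoidAlgebra ℂ G →ₐ[ℂ] Matrix n n ℂ)
    (hr : Function.Surjective r) : ∃ e : ℤ, (e = 0 ∨ e ^ 2 = 1) ∧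
      (r (∑ g : G, single (g ^ 2) 1)).trace = e * Fintype.card G := by
  let p : G →* Matrix n n ℂ := r.toMonoidHom.comp (of ℂ G)
  let T : Matrix n n ℂ → Matrix n n ℂ := fun X => ∑ g, p g * X * (p g)ᵀ
  let Iv : Matrix n n ℂ → Prop := fun X => ∀ g, p g * X * (p g)ᵀ = X
  have h1 : ∀ X, Iv (T X) := fun X h => by
    simp only [T]
    rw [Finset.mul_sum, Finset.sum_mul]
    refine Fintype.sum_equiv (Equiv.mulLeft h) _ _ fun g => ?_
    simp [mul_assoc]
  have h2 : ∀ M, ∃ M', ∀ X, Iv X → M * X = X * M' := fun M => by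
    obtain ⟨a, rfl⟩ := hr M
    induction a using MonoidAlgebra.induction_on with
    | of g =>
      refine ⟨(p g⁻¹)ᵀ, fun X hX => ?_⟩
      nth_rw 2 [← hX g]
      rw [mul_assoc, ← transpose_mul, ← map_mul, inv_mul_cancel, map_one, transpose_one, mul_one]
      rfl
    | add a b ha hb =>
      obtain ⟨A, hA⟩ := ha
      obtain ⟨B, hB⟩ := hb
      exact ⟨A + B, fun X hX => by rw [map_add, add_mul, mul_add, hA X hX, hB X hX]⟩
    | smul c a ha =>
      obtain ⟨A, hA⟩ := ha
      exact ⟨c • A, fun X hX => by rw [map_smul, smul_mul_assoc, mul_smul_comm, hA X hX]⟩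
  have h3 : (r (∑ g : G, single (g ^ 2) 1)).trace =
      ∑ a, ∑ b, T (Matrix.single b a 1) a b := by
    have : ∀ g, r (single (g ^ 2) 1) = p g * p g := fun g => by rw [← map_mul, ← pow_two]; rfl
    simp only [map_sum, trace_sum, this, Matrix.sum_apply, T]
    rw [sc]
    refine Finset.sum_congr rfl fun g _ => ?_
    simp [trace, Matrix.mul_apply, Matrix.single, ite_and, mul_comm]
  by_cases h : ∀ X, Iv X → X = 0
  · exact ⟨0, Or.inl rfl, by rw [h3]; simp [h _ (h1 _)]⟩
  push Not at h
  obtain ⟨Y, hY, h0⟩ := h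
  have h4 : ∀ X, Iv X → ∃ c : ℂ, X = c • Y := fun X hX => by
    obtain ⟨a, b, hab⟩ : ∃ a b, Y a b ≠ 0 := by
      by_contra hn
      push Not at hn
      exact h0 (Matrix.ext hn)
    have : ∃ Z, Y * Z = 1 := by
      choose f hf using fun i => h2 (Matrix.single i a (Y a b)⁻¹)
      refine ⟨∑ i, f i * Matrix.single b i 1, ?_⟩
      simp only [Finset.mul_sum, ← mul_assoc, ← hf _ Y hY, Matrix.single_mul_mul_single]
      simp [hab, Matrix.sum_single_one]
    obtain ⟨Z, hZ⟩ := this
    have hZ' := mul_eq_one_comm.1 hZ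
    obtain ⟨c, hc⟩ := (Matrix.mem_range_scalar_iff_commute_single' (M := X * Z)).2 fun i j => by
      obtain ⟨M, hM⟩ := h2 (Matrix.single i j 1)
      have : M = Z * (Matrix.single i j 1 * Y) := by rw [hM Y hY, ← mul_assoc, hZ', one_mul]
      rw [Commute, SemiconjBy, ← mul_assoc, hM X hX, this]
      simp only [mul_assoc, hZ, mul_one]
    exact ⟨c, by rw [← mul_one X, ← hZ', ← mul_assoc, ← hc]; simp [Matrix.smul_eq_diagonal_mul]⟩
  obtain ⟨e, he⟩ := h4 Yᵀ fun g => by
    simpa [mul_assoc] using congrArg transpose (hY g)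
  choose m hm using fun b a => h4 _ (h1 (Matrix.single b a 1))
  have e2 : e * e = 1 := by
    have := congrArg transpose he
    rw [transpose_transpose, transpose_smul, he, smul_smul] at this
    exact smul_left_injective ℂ h0 (by simpa using this.symm)
  have h5 : ∑ a, ∑ b, Y b a * m b a = Fintype.card G := by
    refine smul_left_injective ℂ h0 ?_
    show _ • Y = _ • Y
    simp only [Finset.sum_smul, mul_smul, ← hm]
    rw [Finset.sum_comm]
    simp only [T, Finset.smul_sum]
    rw [sc, Nat.cast_smul_eq_nsmul, ← Finset.card_univ, ← Finset.sum_const]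
    refine Finset.sum_congr rfl fun g _ => ?_
    have : ∀ (c : ℂ) (X : Matrix n n ℂ), c • (p g * X * (p g)ᵀ) = p g * c • X * (p g)ᵀ := by simp
    simp only [this, ← Finset.sum_mul, ← Finset.mul_sum, Matrix.smul_single, smul_eq_mul, mul_one]
    rw [← matrix_eq_sum_single, hY]
  have h6 : (r (∑ g : G, single (g ^ 2) 1)).trace = e * Fintype.card G := by
    rw [h3, ← h5]
    simp only [hm, Finset.mul_sum, Matrix.smul_apply, smul_eq_mul]
    refine Finset.sum_congr rfl fun a _ => Finset.sum_congr rfl fun b _ => ?_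
    rw [show Y a b = e * Y b a from congrFun (congrFun he b) a]
    ring
  rcases mul_self_eq_one_iff.1 e2 with rfl | rfl
  exacts [⟨1, by simp, by simpa using h6⟩, ⟨-1, by simp, by simpa using h6⟩]

theorem trL (a : MonoidAlgebra ℂ G) :
    LinearMap.trace ℂ _ (LinearMap.mulLeft ℂ a) = Fintype.card G * a.coeff 1 := by
  classical
  rw [LinearMap.trace_eq_matrix_trace ℂ (MonoidAlgebra.basis G ℂ)]
  simp only [Matrix.trace, diag, LinearMap.toMatrix_apply, MonoidAlgebra.basis_apply]
  simp [MonoidAlgebra.basis]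

theorem trP {n : ℕ} {d : Fin n → ℕ}
    (f : MonoidAlgebra ℂ G ≃ₐ[ℂ] Π i, Matrix (Fin (d i)) (Fin (d i)) ℂ) (a : MonoidAlgebra ℂ G)
    (s : Fin n → ℂ) (h : ∀ i, f a i = s i • 1) :
    Fintype.card G * a.coeff 1 = ∑ i, s i * d i ^ 2 := by
  classical
  rw [← trL, ← LinearMap.trace_conj' _ f.toLinearEquiv, LinearMap.trace_eq_matrix_trace ℂ
    (Pi.basis fun i => Matrix.stdBasis ℂ _ _)]
  have : ∀ i (v : Matrix (Fin (d i)) (Fin (d i)) ℂ), f a * Pi.single i v = s i • Pi.single i v :=
    fun i v => by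
      ext1 j
      by_cases e : j = i
      · subst e; simp [h]
      · simp [e]
  simp [Matrix.trace, LinearMap.toMatrix_apply, LinearEquiv.conj_apply, this, Fintype.sum_sigma,
    pow_two, mul_comm]

theorem main (K : Subgroup G) (hK : ∀ g : G, g ^ 2 ∈ K) :
    K.index ∣ Nat.card {g : G // g ^ 2 = 1} ^ 2 := by
  classical
  obtain ⟨n, d, hd, ⟨f⟩⟩ := IsSemisimpleRing.exists_algEquiv_pi_matrix_of_isAlgClosed ℂ
    (MonoidAlgebra ℂ G)
  set z : MonoidAlgebra ℂ G := ∑ g : G, single (g ^ 2) 1 with hz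
  have hs : ∀ i, Function.Surjective ((Pi.evalAlgHom ℂ _ i).comp f.toAlgHom) := fun i =>
    (Function.surjective_eval i).comp f.surjective
  choose e he1 he2 using fun i => fs _ (hs i)
  have hc : ∀ a, Commute a z := fun a => by
    induction a using MonoidAlgebra.induction_on with
    | of g =>
      rw [Commute, SemiconjBy, hz, Finset.mul_sum, Finset.sum_mul]
      refine Fintype.sum_equiv (MulAut.conj g).toEquiv _ _ fun h => ?_
      simp [single_mul_single, pow_two, mul_assoc]
    | add a b ha hb => exact ha.add_left hb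
    | smul c a ha => exact ha.smul_left c
  have : ∀ i, ∃ w : ℂ, f z i = w • 1 := fun i => by
    obtain ⟨c, hc⟩ := (Matrix.mem_range_scalar_iff_commute_single' (M := f z i)).2 fun a b => by
      obtain ⟨x, hx⟩ := hs i (Matrix.single a b 1)
      exact hx ▸ (hc x).map ((Pi.evalAlgHom ℂ _ i).comp f.toAlgHom)
    exact ⟨c, by rw [← hc]; simp [Matrix.smul_eq_diagonal_mul]⟩
  choose w hw using this
  have h1 : ∀ i, w i * d i = e i * Fintype.card G := fun i => by
    have := he2 i
    rw [show ((Pi.evalAlgHom ℂ _ i).comp f.toAlgHom) z = f z i from rfl, hw] at this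
    simpa using this
  have g0 : (Fintype.card G : ℂ) ≠ 0 := by simp
  have h2 : (Nat.card {g : G // g ^ 2 = 1} : ℤ) = ∑ i, e i * d i := by
    have a := trP f z w hw
    have b : z.coeff 1 = Nat.card {g : G // g ^ 2 = 1} := by
      simp [hz, Finsupp.single_apply, Fintype.card_subtype]
    have : (Nat.card {g : G // g ^ 2 = 1} : ℂ) = ∑ i, (e i : ℂ) * d i := mul_left_cancel₀ g0 (by
      rw [← b, a, Finset.mul_sum]
      exact Finset.sum_congr rfl fun i _ => by linear_combination (d i : ℂ) * h1 i)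
    exact_mod_cast this
  have h3 : ∀ c, K.index ∣ ∑ i with w i = c, d i ^ 2 := fun c => by
    let F := mapDomainAlgHom ℂ ℂ K.subtype
    have F1 : ∀ a, (F a).coeff 1 = a.coeff 1 := fun a =>
      Finsupp.mapDomain_apply (f := K.subtype) K.subtype_injective a.coeff 1
    have F2 : Function.Injective F := fun a b h => MonoidAlgebra.ext
      (Finsupp.mapDomain_injective K.subtype_injective (congrArg coeff h))
    let P := Lagrange.interpolate (Finset.univ.image w) id fun x => if x = c then 1 else 0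
    let E := Polynomial.aeval (∑ g : G, single ⟨g ^ 2, hK g⟩ 1 : MonoidAlgebra ℂ K) P
    have a1 : ∀ i, f (F E) i = (if w i = c then 1 else 0 : ℂ) • 1 := fun i => by
      have : F (∑ g : G, single ⟨g ^ 2, hK g⟩ 1) = z := by simp [F, hz]
      rw [← Polynomial.aeval_algHom_apply, this]
      change ((Pi.evalAlgHom ℂ _ i).comp f.toAlgHom) _ = _
      rw [← Polynomial.aeval_algHom_apply,
        show ((Pi.evalAlgHom ℂ _ i).comp f.toAlgHom) z = f z i from rfl, hw,
        ← Algebra.algebraMap_eq_smul_one, Polynomial.aeval_algebraMap_apply_eq_algebraMap_eval,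
        ← Algebra.algebraMap_eq_smul_one]
      exact congrArg _ (Lagrange.eval_interpolate_at_node _ (Set.injOn_id _)
        (Finset.mem_image_of_mem w (Finset.mem_univ i)))
    have a2 : E * E = E := F2 (f.injective (funext fun i => by
      rw [map_mul, map_mul, Pi.mul_apply, a1]
      split_ifs <;> simp))
    have a3 : IsIdempotentElem (LinearMap.mulLeft ℂ E) := by
      rw [IsIdempotentElem, Module.End.mul_eq_comp, ← LinearMap.mulLeft_mul, a2]
    have a4 := (LinearMap.IsIdempotentElem.isProj_range _ a3).trace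
    have a5 := trP f _ _ a1
    rw [trL] at a4
    refine ⟨Module.finrank ℂ (LinearMap.range (LinearMap.mulLeft ℂ E)), ?_⟩
    have : (∑ i with w i = c, (d i : ℂ) ^ 2) = K.index * Module.finrank ℂ
        (LinearMap.range (LinearMap.mulLeft ℂ E)) := by
      rw [← a4, ← mul_assoc, ← Nat.cast_mul, ← Nat.card_eq_fintype_card, K.index_mul_card,
        Nat.card_eq_fintype_card, ← F1, a5, Finset.sum_filter]
      simp
    exact_mod_cast this
  have h4 : ∀ c, (K.index : ℤ) ∣ (∑ i with w i = c, e i * d i) ^ 2 := fun c => by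
    by_cases h : c = 0
    · rw [Finset.sum_eq_zero fun i hi => ?_]
      · simp
      · have := h1 i
        rw [(Finset.mem_filter.1 hi).2, h, zero_mul] at this
        simpa using Or.inl (by simpa using this.symm)
    · refine Dvd.dvd.trans (b := ∑ i with w i = c, (d i : ℤ) ^ 2) ?_
        (Dvd.intro_left (Finset.univ.filter (w · = c)).card ?_)
      · exact_mod_cast h3 c
      · rw [pow_two, Finset.sum_mul_sum, Finset.mul_sum]
        refine Finset.sum_congr rfl fun i hi => ?_
        rw [← nsmul_eq_mul, ← Finset.sum_const]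
        refine Finset.sum_congr rfl fun j hj => ?_
        have a := h1 i
        have b := h1 j
        rw [(Finset.mem_filter.1 hi).2] at a
        rw [(Finset.mem_filter.1 hj).2] at b
        have e1 : e j ^ 2 = 1 := (he1 j).resolve_left fun e0 => by
          simp [e0, h, (hd j).ne] at b
        have e2 : (e i : ℂ) * d j = e j * d i := mul_left_cancel₀ g0
          (by linear_combination (d i : ℂ) * b - (d j : ℂ) * a)
        have e3 : e i * d j = e j * d i := by exact_mod_cast e2
        linear_combination -(d i * e j) * e3 - (d i : ℤ) ^ 2 * e1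
  have : (K.index : ℤ) ∣ (∑ i, e i * d i) ^ 2 := by
    rw [← Finset.sum_fiberwise_of_maps_to (t := Finset.univ.image w) (g := w) (by simp)]
    refine Finset.sum_induction _ (fun x => (K.index : ℤ) ∣ x ^ 2) (fun a b ha hb => ?_) (by simp)
      fun c _ => h4 c
    have : (K.index : ℤ) ∣ a * b := (Int.pow_dvd_pow_iff two_ne_zero).1 (by
      rw [mul_pow, pow_two]; exact mul_dvd_mul ha hb)
    rw [add_sq, mul_assoc]
    exact dvd_add (dvd_add ha (this.mul_left _)) hb
  rw [← h2] at this
  exact_mod_cast this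

theorem card_le (A : Type) [CommGroup A] [Finite A] :
    Nat.card {g : A // g ^ 2 = 1} ≤ 2 ^ Group.rank A := by
  let f : A →* A := powMonoidHom 2
  have h1 : Nat.card (A ⧸ f.range) ∣ 2 ^ Group.rank (A ⧸ f.range) :=
    card_dvd_exponent_pow_rank' _ fun g => by
      obtain ⟨g, rfl⟩ := QuotientGroup.mk_surjective g
      exact (QuotientGroup.eq_one_iff (g ^ 2)).2 ⟨g, rfl⟩
  have h2 : Nat.card f.ker = Nat.card (A ⧸ f.range) := by
    have a := f.ker.card_mul_index
    rw [Subgroup.index_ker, ← f.range.index_mul_card] at a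
    exact Nat.eq_of_mul_eq_mul_right Nat.card_pos a
  exact h2.le.trans ((Nat.le_of_dvd (by positivity) h1).trans (Nat.pow_le_pow_right two_pos
    (Group.rank_le_of_surjective _ (QuotientGroup.mk'_surjective _))))

theorem final (G : Type) [Group G] [Finite G] (h : ∀ g : G, g ^ 2 = 1 → g ∈ Subgroup.center G) :
    (Subgroup.closure {x : G | ∃ g : G, g ^ 2 = x}).index ≤
      2 ^ (2 * Group.rank (Subgroup.center G)) := by
  haveI := Fintype.ofFinite G
  haveI : Nonempty {g : G // g ^ 2 = 1} := ⟨⟨1, one_pow 2⟩⟩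
  refine (Nat.le_of_dvd (pow_pos Nat.card_pos 2)
    (main (Subgroup.closure {x : G | ∃ g : G, g ^ 2 = x}) fun g =>
      Subgroup.subset_closure ⟨g, rfl⟩)).trans ?_
  rw [pow_mul']
  letI : CommGroup (Subgroup.center G) :=
    { (inferInstance : Group (Subgroup.center G)) with
      mul_comm := fun a b => Subtype.ext (Subgroup.mem_center_iff.1 b.2 a) }
  refine Nat.pow_le_pow_left (le_trans ?_ (card_le (Subgroup.center G))) 2
  exact Nat.card_le_card_of_injective (fun g => ⟨⟨g.1, h _ g.2⟩, Subtype.ext g.2⟩)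
    fun a b e => Subtype.ext (congrArg (·.1.1) e)

end Pool.Agent.H.MP_970c5e_al
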